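import Pool.Agent.X156.SR.Proj

/-!
# Simplicial refinements in which preimages of extreme points have overlapping supports

For `k ≥ 3` the polytope `C = {x ∈ ℝ^k | ∑ x_i = 0, ∑ |x_i| ≤ 1}`, with the `k (k - 1)` extreme
points `(e_i - e_j) / 2`, has a simplicial refinement by a simplex `T` with the `2 k` vertices
`(i, ±)`: `f` sends `a` to `(a (i, +) - a (i, -))_i` and is defined where this vector has sum zero.
The forms on `C` lift to forms on `T` by the Hahn-Banach theorem. The preimages of `(e_i - e_j) / 2`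
and of `(e_i - e_l) / 2` both have a positive coefficient at the vertex `(i, +)`. For `k = 3`, `C`
is a hexagon and `T` has six vertices.
-/

set_option autoImplicit false

open Finset

namespace Pool.Agent.Results.MP_b5b962_gt.OverlappingFaces

open Pool.Agent.X156.SR

/-- The minimal face of the simplex with the vertices `v j` that contains the set `S`: the convex
hull of the vertices which have a positive barycentric coefficient at some point of `S`. -/
def minFace {F : Type*} [AddCommGroup F] [Module ℝ F] {n : ℕ} (v : Fin n → F) (S : Set F) :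
    Set F :=
  convexHull ℝ {x | ∃ i, x = v i ∧ ∃ s ∈ S, ∃ w : Fin n → ℝ, (∀ j, 0 ≤ w j) ∧ ∑ j, w j = 1 ∧
    ∑ j, w j • v j = s ∧ 0 < w i}

/-- half of the difference of two unit vectors -/
noncomputable def dif {k : ℕ} (i j : Fin k) : Fin k → ℝ :=
  Pi.single i (1 / 2) - Pi.single j (1 / 2)

theorem dif_norm {k : ℕ} {i j : Fin k} (hij : i ≠ j) : ∑ l, |dif i j l| = 1 := by
  have h : ∀ l, |dif i j l| = (Pi.single i (1 / 2) : Fin k → ℝ) l +
      (Pi.single j (1 / 2) : Fin k → ℝ) l := by
    intro l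
    unfold dif
    rw [Pi.sub_apply]
    by_cases h1 : l = i
    · subst h1
      rw [Pi.single_eq_same, Pi.single_eq_of_ne hij]
      norm_num
    · rw [Pi.single_eq_of_ne h1]
      by_cases h2 : l = j
      · subst h2
        rw [Pi.single_eq_same]
        norm_num
      · rw [Pi.single_eq_of_ne h2]
        norm_num
  rw [Finset.sum_congr rfl fun l _ => h l, Finset.sum_add_distrib]
  simp only [Finset.sum_pi_single', Finset.mem_univ, if_true]
  norm_num

theorem dif_mem {k : ℕ} (i j : Fin k) : dif i j ∈ mom k 1 := by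
  intro t ht
  have : t = 0 := by omega
  subst this
  simp [dif, Finset.sum_sub_distrib]

theorem dif_supp {k : ℕ} {i j : Fin k} (hij : i ≠ j) : supp (dif i j) = {i, j} := by
  ext l
  rw [mem_supp, Finset.mem_insert, Finset.mem_singleton]
  unfold dif
  rw [Pi.sub_apply]
  by_cases h1 : l = i
  · subst h1
    rw [Pi.single_eq_same, Pi.single_eq_of_ne hij]
    norm_num
  · rw [Pi.single_eq_of_ne h1]
    by_cases h2 : l = j
    · subst h2
      rw [Pi.single_eq_same]
      norm_num
    · rw [Pi.single_eq_of_ne h2]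
      simp [h1, h2]

theorem dif_extreme {k : ℕ} {i j : Fin k} (hij : i ≠ j) :
    dif i j ∈ (body (mom k 1)).extremePoints ℝ := by
  refine extreme_of_minimal (dif_mem i j) (dif_norm hij) fun y hy hz => ?_
  refine (mom_uniform k 1).scale (dif_mem i j) hy ?_ fun l hl => ?_
  · rw [dif_supp hij, Finset.card_pair hij]
  · rw [mem_supp] at hl ⊢
    exact fun h0 => hl (hz l h0)

/-- **Negative answer to Q1.** For every `k ≥ 3` there is a non-simplicial statistical model
`(C, Ω C)` with `k (k - 1)` extreme points and with a simplicial refinement `(T, Ω T, f, g)`, `T` a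
simplex with the `2 k` vertices `v j`, such that for two distinct extreme points `a`, `b` of `C` the
minimal faces of `T` containing the preimages of `a` and of `b` are not disjoint: some vertex of `T`
has a positive barycentric coefficient at a point of the preimage of `a` and at a point of the
preimage of `b`. -/
theorem result (k : ℕ) (hk : 3 ≤ k) :
    ∃ C : Set (Fin k → ℝ), IsPolytope C ∧ ¬ IsSimplex C ∧
      (C.extremePoints ℝ).ncard = k * (k - 1) ∧
      ∃ v : Fin (2 * k) → (Fin k × Bool → ℝ), AffineIndependent ℝ v ∧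
      ∃ (f : (Fin k × Bool → ℝ) →. (Fin k → ℝ))
        (g : (convexHull ℝ (Set.range v) → ℝ) →. (C → ℝ)),
        IsRefinement C (convexHull ℝ (Set.range v)) f g ∧
        ∃ a ∈ C.extremePoints ℝ, ∃ b ∈ C.extremePoints ℝ, a ≠ b ∧
          (minFace v {x | a ∈ f x} ∩ minFace v {x | b ∈ f x}).Nonempty ∧
          ∃ (i : Fin (2 * k)) (x y : Fin k × Bool → ℝ) (w z : Fin (2 * k) → ℝ),
            a ∈ f x ∧ b ∈ f y ∧ (∀ j, 0 ≤ w j) ∧ ∑ j, w j = 1 ∧ ∑ j, w j • v j = x ∧
            (∀ j, 0 ≤ z j) ∧ ∑ j, z j = 1 ∧ ∑ j, z j • v j = y ∧ 0 < w i ∧ 0 < z i := by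
  classical
  have hcard := mom_ncard (k := k) (r := 1) (by omega)
  have h2c : 2 * k.choose (1 + 1) = k * (k - 1) := by
    rw [Nat.choose_two_right, Nat.mul_div_cancel' (Nat.even_mul_pred_self _).two_dvd]
  rw [h2c] at hcard
  have h6 : 2 < k * (k - 1) := by
    have : 3 * 2 ≤ k * (k - 1) := Nat.mul_le_mul hk (by omega)
    omega
  have : Nonempty (Fin k) := ⟨⟨0, by omega⟩⟩
  let ε : Fin (2 * k) ≃ Fin k × Bool := Fintype.equivOfCardEq (by
    rw [Fintype.card_prod, Fintype.card_fin, Fintype.card_fin, Fintype.card_bool]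
    ring)
  let v : Fin (2 * k) → (Fin k × Bool → ℝ) := fun j => Pi.single (ε j) 1
  have hli : LinearIndependent ℝ (fun i : Fin k × Bool => (Pi.single i 1 : Fin k × Bool → ℝ)) := by
    have := (Pi.basisFun ℝ (Fin k × Bool)).linearIndependent
    convert this using 1
    funext i
    simp
  have hT : convexHull ℝ (Set.range v) = stdSimplex ℝ (Fin k × Bool) := by
    rw [← convexHull_rangle_single_eq_stdSimplex]
    congr 1
    ext x
    constructor
    · rintro ⟨j, rfl⟩
      exact ⟨ε j, rfl⟩
    · rintro ⟨i, rfl⟩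
      exact ⟨ε.symm i, by simp [v]⟩
  have hv : AffineIndependent ℝ v := (hli.affineIndependent).comp_embedding ε.toEmbedding
  refine ⟨body (mom k 1), body_isPolytope _, body_not_isSimplex (by omega), hcard, v, hv, ?_⟩
  rw [hT]
  refine ⟨_, _, isRefinement_body (mom k 1), ?_⟩
  let i0 : Fin k := ⟨0, by omega⟩
  let i1 : Fin k := ⟨1, by omega⟩
  let i2 : Fin k := ⟨2, by omega⟩
  have h01 : i0 ≠ i1 := by simp [i0, i1, Fin.ext_iff]
  have h02 : i0 ≠ i2 := by simp [i0, i2, Fin.ext_iff]
  have h12 : i1 ≠ i2 := by simp [i1, i2, Fin.ext_iff]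
  -- the barycentric coordinates of a point of the standard simplex
  have hbary : ∀ x : Fin k × Bool → ℝ, ∑ j, x (ε j) • v j = x := by
    intro x
    have h1 : ∑ j, x (ε j) • v j = ∑ p, x p • (Pi.single p 1 : Fin k × Bool → ℝ) :=
      Equiv.sum_comp ε fun p => x p • (Pi.single p 1 : Fin k × Bool → ℝ)
    rw [h1]
    funext q
    rw [Finset.sum_apply, Finset.sum_eq_single q]
    · simp
    · intro b _ hb
      simp [Pi.single_eq_of_ne hb.symm]
    · intro h
      exact absurd (Finset.mem_univ q) h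
  have hpre : ∀ j : Fin k, i0 ≠ j → dif i0 j ∈ fmap (mom k 1) (lift (dif i0 j)) ∧
      0 < lift (dif i0 j) (i0, true) ∧ lift (dif i0 j) ∈ stdSimplex ℝ (Fin k × Bool) := by
    intro j hj
    have h1 := lift_mem (x := dif i0 j) (dif_norm hj).le
    refine ⟨mem_fmap.2 ⟨h1, ?_, (diff_lift _).symm⟩, ?_, h1⟩
    · rw [diff_lift]
      exact dif_mem _ _
    · unfold lift
      rw [dif_norm hj]
      simp only [if_true, sub_self, zero_div, add_zero]
      unfold dif
      rw [Pi.sub_apply, Pi.single_eq_same, Pi.single_eq_of_ne hj]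
      norm_num
  obtain ⟨ha1, ha2, ha3⟩ := hpre i1 h01
  obtain ⟨hb1, hb2, hb3⟩ := hpre i2 h02
  have hsum : ∀ x ∈ stdSimplex ℝ (Fin k × Bool), ∑ j, x (ε j) = 1 := by
    intro x hx
    rw [← hx.2]
    exact Equiv.sum_comp ε x
  refine ⟨dif i0 i1, dif_extreme h01, dif i0 i2, dif_extreme h02, ?_, ?_, ε.symm (i0, true),
    lift (dif i0 i1), lift (dif i0 i2), fun j => lift (dif i0 i1) (ε j),
    fun j => lift (dif i0 i2) (ε j), ha1, hb1, fun j => ha3.1 _, hsum _ ha3, hbary _,
    fun j => hb3.1 _, hsum _ hb3, hbary _, ?_, ?_⟩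
  · intro h
    have := congrArg supp h
    rw [dif_supp h01, dif_supp h02] at this
    have h3 : i1 ∈ ({i0, i2} : Finset (Fin k)) := this ▸ (by simp)
    rw [Finset.mem_insert, Finset.mem_singleton] at h3
    rcases h3 with h3 | h3
    · exact h01 h3.symm
    · exact h12 h3
  · refine ⟨v (ε.symm (i0, true)), subset_convexHull ℝ _ ?_, subset_convexHull ℝ _ ?_⟩
    · exact ⟨_, rfl, lift (dif i0 i1), ha1, fun j => lift (dif i0 i1) (ε j), fun j => ha3.1 _,
        hsum _ ha3, hbary _, by simpa using ha2⟩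
    · exact ⟨_, rfl, lift (dif i0 i2), hb1, fun j => lift (dif i0 i2) (ε j), fun j => hb3.1 _,
        hsum _ hb3, hbary _, by simpa using hb2⟩
  · simpa using ha2
  · simpa using hb2

end Pool.Agent.Results.MP_b5b962_gt.OverlappingFaces
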